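import Mathlib

set_option autoImplicit false

open Polynomial

namespace Pool.Agent.Helper52.Thin.DOM

/-- a monic polynomial which is irreducible over a field containing the ring is prime -/
theorem prime_of_monic_map {R K : Type} [CommRing R] [IsDomain R] [Field K] (φ : R →+* K)
    (hφ : Function.Injective φ) (G : R[X]) (hG : G.Monic) (h : Irreducible (G.map φ)) :
    Prime G := by
  refine ⟨hG.ne_zero, fun hu => h.not_isUnit (hu.map (mapRingHom φ)), fun P Q hPQ => ?_⟩
  have h1 : G.map φ ∣ P.map φ * Q.map φ := by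
    rw [← Polynomial.map_mul]
    exact Polynomial.map_dvd φ hPQ
  rcases h.prime.dvd_or_dvd h1 with h2 | h2
  · left
    exact (Polynomial.map_dvd_map φ hφ hG).1 h2
  · right
    exact (Polynomial.map_dvd_map φ hφ hG).1 h2

/-- membership in a subring is checked on constants and the variable -/
theorem gen_poly {R T : Type} [CommRing R] [CommRing T] (f : R[X] →+* T) (S : Subring T)
    (hC : ∀ r, f (C r) ∈ S) (hX : f X ∈ S) : ∀ p, f p ∈ S := by
  intro p
  induction p using Polynomial.induction_on' with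
  | add p q hp hq =>
    rw [map_add]
    exact S.add_mem hp hq
  | monomial n a =>
    rw [← C_mul_X_pow_eq_monomial, map_mul, map_pow]
    exact S.mul_mem (hC a) (S.pow_mem hX n)

section constr

variable {κ : Type} [Field κ] (g : κ[X][X]) (n : ℕ) (i j : Fin n)

/-- `κ[x_i][y] / (g(x_i, y))` -/
abbrev A1 : Type := AdjoinRoot g

/-- the inclusion of the constants -/
noncomputable def eps : κ →+* A1 g := (AdjoinRoot.of g).comp C

/-- the polynomial `g(x_j, z)` over `A1` -/
noncomputable def G2 : (A1 g)[X][X] := g.map (mapRingHom (eps g))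

/-- `A1[x_j][z] / (g(x_j, z))` -/
abbrev A2 : Type := AdjoinRoot (G2 g)

/-- the algebra of the part -/
abbrev A3 : Type := MvPolynomial {l : Fin n // l ≠ i ∧ l ≠ j} (A2 g)

/-- from `A1` -/
noncomputable def i1 : A1 g →+* A3 g n i j :=
  (MvPolynomial.C).comp ((AdjoinRoot.of (G2 g)).comp C)

/-- the constants -/
noncomputable def ee : κ →+* A3 g n i j := (i1 g n i j).comp (eps g)

/-- the elements `x_l` -/
noncomputable def xx (l : Fin n) : A3 g n i j :=
  if h : l ≠ i ∧ l ≠ j then MvPolynomial.X ⟨l, h⟩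
  else if l = i then i1 g n i j (AdjoinRoot.of g X)
  else MvPolynomial.C (AdjoinRoot.of (G2 g) X)

/-- the element `y` -/
noncomputable def yy : A3 g n i j := i1 g n i j (AdjoinRoot.root g)

/-- the element `z` -/
noncomputable def zz : A3 g n i j := MvPolynomial.C (AdjoinRoot.root (G2 g))

theorem gen (hij : i ≠ j) (S : Subring (A3 g n i j)) (he : ∀ u, ee g n i j u ∈ S)
    (hx : ∀ l, xx g n i j l ∈ S) (hy : yy g n i j ∈ S) (hz : zz g n i j ∈ S) :
    ∀ a, a ∈ S := by
  have h1 : ∀ a : A1 g, i1 g n i j a ∈ S := by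
    intro a
    obtain ⟨Q, rfl⟩ := AdjoinRoot.mk_surjective a
    refine gen_poly ((i1 g n i j).comp (AdjoinRoot.mk g)) S (fun r => ?_) ?_ Q
    · refine gen_poly (((i1 g n i j).comp (AdjoinRoot.mk g)).comp C) S (fun u => ?_) ?_ r
      · exact he u
      · have := hx i
        unfold xx at this
        simpa using this
    · exact hy
  have h2 : ∀ a : A2 g, (MvPolynomial.C a : A3 g n i j) ∈ S := by
    intro a
    obtain ⟨Q, rfl⟩ := AdjoinRoot.mk_surjective a
    refine gen_poly ((MvPolynomial.C : A2 g →+* A3 g n i j).comp (AdjoinRoot.mk (G2 g))) S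
      (fun r => ?_) ?_ Q
    · refine gen_poly (((MvPolynomial.C : A2 g →+* A3 g n i j).comp
        (AdjoinRoot.mk (G2 g))).comp C) S (fun u => ?_) ?_ r
      · exact h1 u
      · have := hx j
        unfold xx at this
        simpa [hij.symm] using this
    · exact hz
  intro a
  induction a using MvPolynomial.induction_on with
  | C a => exact h2 a
  | add p q hp hq => exact S.add_mem hp hq
  | mul_X p l hp =>
    refine S.mul_mem hp ?_
    have := hx l.1
    unfold xx at this
    simpa [l.2.1, l.2.2] using this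

/-- value of a polynomial in two variables -/
noncomputable def ev {R N : Type} [CommRing R] [CommRing N] (φ : R →+* N) (t α : N)
    (g : R[X][X]) : N := eval₂ (eval₂RingHom φ t) α g

theorem univ {N : Type} [CommRing N] (ψ : κ →+* N) (θ : Fin n → N) (b c : N)
    (hb : ev ψ (θ i) b g = 0) (hc : ev ψ (θ j) c g = 0) :
    ∃ φ : A3 g n i j →+* N, (∀ u, φ (ee g n i j u) = ψ u) ∧ (∀ l, φ (xx g n i j l) = θ l) ∧
      φ (yy g n i j) = b ∧ φ (zz g n i j) = c := by
  have hφ1 : ∃ φ1 : A1 g →+* N, (∀ u, φ1 (eps g u) = ψ u) ∧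
      φ1 (AdjoinRoot.of g X) = θ i ∧ φ1 (AdjoinRoot.root g) = b := by
    refine ⟨AdjoinRoot.lift (eval₂RingHom ψ (θ i)) b hb, fun u => ?_, ?_, ?_⟩
    · simp [eps]
    · simp
    · simp
  obtain ⟨φ1, h1, h1x, h1y⟩ := hφ1
  have hc2 : (G2 g).eval₂ (eval₂RingHom φ1 (θ j)) c = 0 := by
    unfold G2
    rw [eval₂_map]
    have : (eval₂RingHom φ1 (θ j)).comp (mapRingHom (eps g)) = eval₂RingHom ψ (θ j) := by
      ext u
      · simp [h1]
      · simp
    rw [this]
    exact hc
  have hφ2 : ∃ φ2 : A2 g →+* N, (∀ u : A1 g, φ2 (AdjoinRoot.of (G2 g) (C u)) = φ1 u) ∧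
      φ2 (AdjoinRoot.of (G2 g) X) = θ j ∧ φ2 (AdjoinRoot.root (G2 g)) = c := by
    refine ⟨AdjoinRoot.lift (eval₂RingHom φ1 (θ j)) c hc2, fun u => ?_, ?_, ?_⟩
    · simp
    · simp
    · simp
  obtain ⟨φ2, h2, h2x, h2z⟩ := hφ2
  refine ⟨MvPolynomial.eval₂Hom φ2 (fun l => θ l.1), fun u => ?_, fun l => ?_, ?_, ?_⟩
  · simp only [ee, i1, RingHom.comp_apply, MvPolynomial.coe_eval₂Hom, MvPolynomial.eval₂_C]
    rw [h2, h1]
  · unfold xx
    split_ifs with hl hl2
    · simp
    · simp only [i1, RingHom.comp_apply, MvPolynomial.coe_eval₂Hom, MvPolynomial.eval₂_C]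
      rw [h2, h1x, hl2]
    · have : l = j := by
        by_contra h
        exact hl ⟨hl2, h⟩
      simp only [MvPolynomial.coe_eval₂Hom, MvPolynomial.eval₂_C]
      rw [h2x, this]
  · simp only [yy, i1, RingHom.comp_apply, MvPolynomial.coe_eval₂Hom, MvPolynomial.eval₂_C]
    rw [h2, h1y]
  · simp only [zz, MvPolynomial.coe_eval₂Hom, MvPolynomial.eval₂_C]
    rw [h2z]

theorem ev_hom {R N M : Type} [CommRing R] [CommRing N] [CommRing M] (φ : R →+* N)
    (ψ : N →+* M) (t α : N) (g : R[X][X]) : ψ (ev φ t α g) = ev (ψ.comp φ) (ψ t) (ψ α) g := by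
  unfold ev
  rw [hom_eval₂]
  congr 1
  ext u
  · simp
  · simp

theorem ev_y : ev (ee g n i j) (xx g n i j i) (yy g n i j) g = 0 := by
  have hx : xx g n i j i = i1 g n i j (AdjoinRoot.of g X) := by
    unfold xx
    simp
  rw [hx]
  unfold ee yy
  rw [← ev_hom]
  have : ev (eps g) (AdjoinRoot.of g X) (AdjoinRoot.root g) g = 0 := by
    unfold ev
    have h : eval₂RingHom (eps g) (AdjoinRoot.of g X) = AdjoinRoot.of g := by
      ext u
      · simp [eps]
      · simp
    rw [h]
    exact AdjoinRoot.eval₂_root g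
  rw [this, map_zero]

theorem ev_z (hij : i ≠ j) : ev (ee g n i j) (xx g n i j j) (zz g n i j) g = 0 := by
  have hx : xx g n i j j = MvPolynomial.C (AdjoinRoot.of (G2 g) X) := by
    unfold xx
    simp [hij.symm]
  rw [hx]
  unfold zz
  have h1 : ee g n i j = (MvPolynomial.C : A2 g →+* A3 g n i j).comp
      ((AdjoinRoot.of (G2 g)).comp (C.comp (eps g))) := by
    unfold ee i1
    rfl
  rw [h1, ← ev_hom]
  have : ev ((AdjoinRoot.of (G2 g)).comp (C.comp (eps g))) (AdjoinRoot.of (G2 g) X)
      (AdjoinRoot.root (G2 g)) g = 0 := by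
    unfold ev
    have h : eval₂RingHom ((AdjoinRoot.of (G2 g)).comp (C.comp (eps g)))
        (AdjoinRoot.of (G2 g) X) = (AdjoinRoot.of (G2 g)).comp (mapRingHom (eps g)) := by
      ext u
      · simp
      · simp
    rw [h, ← eval₂_map]
    exact AdjoinRoot.eval₂_root (G2 g)
  rw [this, map_zero]

end constr

end Pool.Agent.Helper52.Thin.DOM
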