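import Pool.Agent.Helper55.RT.Spec
import Pool.Agent.Helper52.Thin.DOMA

set_option autoImplicit false
set_option linter.all false

open Polynomial

namespace Pool.Agent.Helper52.Thin.DOM

open Pool.Agent.Helper55.RT Pool.Agent.Helper55.RG

theorem prime_ext (hABS : Q_ABS) {κ k' A₁ : Type} [Field κ] [CharZero κ] [Field k'] [Algebra κ k']
    [IsSepClosure κ k'] [CommRing A₁] [IsDomain A₁] (ε : κ →+* A₁) (g : κ[X][X]) (hg : g.Monic)
    (hirr : Irreducible ((g.map (mapRingHom (algebraMap κ k'))).map
      (algebraMap k'[X] (FractionRing k'[X])))) : Prime (g.map (mapRingHom ε)) := by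
  letI : Algebra κ (FractionRing A₁) := ((algebraMap A₁ (FractionRing A₁)).comp ε).toAlgebra
  have h := hABS κ k' (FractionRing A₁) g hg hirr
  have e1 : algebraMap κ (FractionRing A₁) = (algebraMap A₁ (FractionRing A₁)).comp ε := rfl
  refine prime_of_monic_map ((algebraMap (FractionRing A₁)[X] (FractionRing (FractionRing A₁)[X])).comp
    (mapRingHom (algebraMap A₁ (FractionRing A₁)))) ?_ _ (hg.map _) ?_
  · have i1 := IsFractionRing.injective (FractionRing A₁)[X] (FractionRing (FractionRing A₁)[X])
    have i2 := Polynomial.map_injective _ (IsFractionRing.injective A₁ (FractionRing A₁))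
    intro a b hab
    exact i2 (i1 hab)
  · convert h using 1
    rw [Polynomial.map_map, Polynomial.map_map, e1, RingHom.comp_assoc, mapRingHom_comp]

theorem dom1 {κ k' : Type} [Field κ] [Field k'] [Algebra κ k'] (g : κ[X][X]) (hg : g.Monic)
    (hirr : Irreducible ((g.map (mapRingHom (algebraMap κ k'))).map
      (algebraMap k'[X] (FractionRing k'[X])))) : Prime g := by
  refine prime_of_monic_map ((algebraMap k'[X] (FractionRing k'[X])).comp
    (mapRingHom (algebraMap κ k'))) ?_ _ hg ?_
  · have i1 := IsFractionRing.injective k'[X] (FractionRing k'[X])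
    have i2 := Polynomial.map_injective _ (algebraMap κ k').injective
    intro a b hab
    exact i2 (i1 hab)
  · rw [← Polynomial.map_map]
    exact hirr

theorem dom3 (hABS : Q_ABS) {κ k' : Type} [Field κ] [CharZero κ] [Field k'] [Algebra κ k']
    [IsSepClosure κ k'] (g : κ[X][X]) (hg : g.Monic)
    (hirr : Irreducible ((g.map (mapRingHom (algebraMap κ k'))).map
      (algebraMap k'[X] (FractionRing k'[X])))) (n : ℕ) (i j : Fin n) : IsDomain (A3 g n i j) := by
  haveI h1 : IsDomain (A1 g) := AdjoinRoot.isDomain_of_prime (dom1 g hg hirr)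
  haveI h2 : IsDomain (A2 g) := AdjoinRoot.isDomain_of_prime (prime_ext hABS (eps g) g hg hirr)
  infer_instance

/-- the polynomial with given coefficients -/
theorem mpol_coeff {A : Type} [CommRing A] {n : ℕ} (P : A[X]) (hP : P.Monic)
    (hn : P.natDegree = n) : mpol (fun l : Fin n => P.coeff l) = P := by
  subst hn
  conv_rhs => rw [hP.as_sum]
  unfold mpol
  rw [Finset.sum_range]

theorem mpol_map {A B : Type} [CommRing A] [CommRing B] {n : ℕ} (f : A →+* B) (a : Fin n → A) :
    (mpol a).map f = mpol (fun l => f (a l)) := by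
  unfold mpol
  simp [Polynomial.map_sum]

theorem mpol_get {A : Type} [CommRing A] {n : ℕ} (a : Fin n → A) (l : Fin n) :
    (mpol a).coeff l = a l := by
  unfold mpol
  rw [coeff_add, coeff_X_pow, if_neg (by omega), zero_add, finsetSum_coeff]
  simp only [coeff_C_mul, coeff_X_pow]
  rw [Finset.sum_eq_single l]
  · simp
  · intro b _ hb
    rw [if_neg (fun h => hb (Fin.ext h.symm)), mul_zero]
  · simp

theorem mpol_monic {A : Type} [CommRing A] [Nontrivial A] {n : ℕ} (a : Fin n → A) :
    (mpol a).Monic ∧ (mpol a).natDegree = n := by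
  have h : (∑ i : Fin n, C (a i) * X ^ (i : ℕ)).degree < (n : WithBot ℕ) := by
    have h1 : (∑ i : Fin n, C (a i) * X ^ (i : ℕ)) ∈ degreeLT A n := by
      refine Submodule.sum_mem _ fun l _ => ?_
      rw [mem_degreeLT]
      refine lt_of_le_of_lt (degree_C_mul_X_pow_le _ _) ?_
      exact_mod_cast l.2
    exact mem_degreeLT.1 h1
  refine ⟨monic_X_pow_add h, ?_⟩
  unfold mpol
  have h2 : (X ^ n + ∑ i : Fin n, C (a i) * X ^ (i : ℕ)).degree = (n : WithBot ℕ) := by
    rw [degree_add_eq_left_of_degree_lt (by rw [degree_X_pow]; exact h), degree_X_pow]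
  exact natDegree_eq_of_degree_eq_some h2

/-- a monic polynomial over an algebraically closed field is a product of linear factors -/
theorem exists_roots {K : Type} [Field K] [IsAlgClosed K] {n : ℕ} (P : K[X]) (hP : P.Monic)
    (hn : P.natDegree = n) : ∃ θ : Fin n → K, P = ∏ l, (X - C (θ l)) := by
  have hs : P.Splits := IsAlgClosed.splits P
  have hc : P.roots.toList.length = n := by
    rw [Multiset.length_toList, ← hn]
    exact hs.natDegree_eq_card_roots.symm
  refine ⟨fun l => P.roots.toList.get (l.cast hc.symm), ?_⟩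
  have h1 : P = (P.roots.map fun a => X - C a).prod := by
    have := hs.eq_prod_roots
    rw [hP.leadingCoeff, C_1, one_mul] at this
    exact this
  have h2 : (P.roots.map fun a => X - C a).prod =
      ((P.roots.toList).map fun a => X - C a).prod := by
    rw [← Multiset.prod_coe, ← Multiset.map_coe, Multiset.coe_toList]
  have h3 : ((P.roots.toList).map fun a => X - C a).prod =
      ∏ l : Fin n, (X - C (P.roots.toList.get (l.cast hc.symm))) := by
    rw [← List.prod_ofFn]
    congr 1
    apply List.ext_get
    · simp [hc]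
    · intro m h1 h2
      simp
  rw [← h3, ← h2]
  exact h1

theorem main (hABS : Q_ABS) : Q_DOM := by
  intro k k' _ _ _ _ _ κ₀ _ g hg hirr n i j hij
  haveI : IsSepClosed k' := IsSepClosure.sep_closed k
  haveI : CharZero k' := charZero_of_injective_algebraMap (algebraMap k k').injective
  haveI : IsAlgClosed k' := IsSepClosed.isAlgClosed_of_perfectField k'
  haveI : Algebra.IsSeparable k k' := IsSepClosure.separable
  haveI : IsSepClosure κ₀ k' := ⟨inferInstance, Algebra.isSeparable_tower_top_of_isSeparable k κ₀ k'⟩
  haveI : CharZero κ₀ := charZero_of_injective_algebraMap (algebraMap k κ₀).injective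
  have hdom : IsDomain (A3 g n i j) := dom3 hABS (κ := κ₀) (k' := k') g hg hirr n i j
  haveI := hdom
  -- the structure
  let P : (A3 g n i j)[X] := ∏ l, (X - C (xx g n i j l))
  have hPm : P.Monic := monic_prod_of_monic _ _ fun l _ => monic_X_sub_C _
  have hPd : P.natDegree = n := by
    rw [natDegree_prod_of_monic _ _ fun l _ => monic_X_sub_C _]
    simp
  let ρ : MvPolynomial (Fin n) k →+* A3 g n i j :=
    MvPolynomial.eval₂Hom ((ee g n i j).comp (algebraMap k κ₀)) (fun l => P.coeff l)
  letI alg : Algebra (MvPolynomial (Fin n) k) (A3 g n i j) := ρ.toAlgebra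
  have halg : algebraMap (MvPolynomial (Fin n) k) (A3 g n i j) = ρ := rfl
  -- evaluation
  have hev : ∀ (a : Fin n → k) (θ : Fin n → k') (b c : k'),
      (mpol a).map (algebraMap k k') = ∏ l, (X - C (θ l)) →
      ev2 (algebraMap κ₀ k') (θ i) b g = 0 → ev2 (algebraMap κ₀ k') (θ j) c g = 0 →
      ∃ φ : A3 g n i j →+* k', (∀ r, φ (algebraMap (MvPolynomial (Fin n) k) (A3 g n i j) r) =
          algebraMap k k' (MvPolynomial.eval a r)) ∧
        (∀ u, φ (ee g n i j u) = (u : k')) ∧ (∀ l, φ (xx g n i j l) = θ l) ∧
        φ (yy g n i j) = b ∧ φ (zz g n i j) = c := by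
    intro a θ b c hθ hb hc
    obtain ⟨φ, h1, h2, h3, h4⟩ := univ g n i j (algebraMap κ₀ k') θ b c hb hc
    refine ⟨φ, fun r => ?_, h1, h2, h3, h4⟩
    rw [halg]
    have hPφ : P.map φ = (mpol a).map (algebraMap k k') := by
      rw [hθ]
      simp only [P, Polynomial.map_prod, Polynomial.map_sub, Polynomial.map_X, Polynomial.map_C, h2]
    have : φ.comp ρ = (algebraMap k k').comp (MvPolynomial.eval a) := by
      apply MvPolynomial.ringHom_ext
      · intro r
        simp only [ρ, RingHom.comp_apply, MvPolynomial.coe_eval₂Hom, MvPolynomial.eval₂_C,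
          MvPolynomial.eval_C, h1]
        rfl
      · intro l
        simp only [ρ, RingHom.comp_apply, MvPolynomial.coe_eval₂Hom, MvPolynomial.eval₂_X,
          MvPolynomial.eval_X]
        rw [← coeff_map, hPφ, coeff_map, mpol_get]
    exact congrArg (fun f => f r) this
  have hgd : 0 < g.natDegree := by
    by_contra h
    have h0 : g = 1 := by
      apply hg.natDegree_eq_zero.1
      omega
    apply hirr.not_isUnit
    rw [h0]
    simp
  have hroot : ∀ t : k', ∃ b : k', ev2 (algebraMap κ₀ k') t b g = 0 := by
    intro t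
    obtain ⟨b, hb⟩ := IsAlgClosed.exists_root (g.map (eval₂RingHom (algebraMap κ₀ k') t)) (by
      rw [hg.degree_map, degree_eq_natDegree hg.ne_zero]
      exact_mod_cast hgd.ne')
    refine ⟨b, ?_⟩
    unfold ev2
    rw [IsRoot, eval_map] at hb
    exact hb
  refine ⟨A3 g n i j, inferInstance, hdom, alg, ee g n i j, xx g n i j, yy g n i j, zz g n i j,
    ?_, ?_, hev⟩
  · -- finite
    have hx : ∀ l, IsIntegral (MvPolynomial (Fin n) k) (xx g n i j l) := by
      intro l
      refine ⟨mpol MvPolynomial.X, (mpol_monic _).1, ?_⟩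
      rw [halg, ← eval_map, mpol_map]
      have : (fun l : Fin n => ρ (MvPolynomial.X l)) = fun l : Fin n => P.coeff l := by
        funext l
        simp [ρ]
      rw [this, mpol_coeff P hPm hPd]
      simp only [P, eval_prod, eval_sub, eval_X, eval_C]
      exact Finset.prod_eq_zero (Finset.mem_univ l) (sub_self _)
    have he : ∀ u : κ₀, IsIntegral (MvPolynomial (Fin n) k) (ee g n i j u) := by
      intro u
      have hu : IsIntegral k u := Algebra.IsIntegral.isIntegral u
      obtain ⟨q, hq, hq0⟩ := hu
      refine ⟨q.map MvPolynomial.C, hq.map _, ?_⟩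
      rw [eval₂_map]
      have : (algebraMap (MvPolynomial (Fin n) k) (A3 g n i j)).comp MvPolynomial.C =
          (ee g n i j).comp (algebraMap k κ₀) := by
        ext r
        rw [halg]
        simp [ρ]
      rw [this, ← hom_eval₂, hq0, map_zero]
    have hg2 : ∀ t w : A3 g n i j, IsIntegral (MvPolynomial (Fin n) k) t →
        ev (ee g n i j) t w g = 0 → IsIntegral (MvPolynomial (Fin n) k) w := by
      intro t w ht hw
      let B := integralClosure (MvPolynomial (Fin n) k) (A3 g n i j)
      have hw2 : IsIntegral B w := by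
        -- coefficients
        have hco : ∀ q : κ₀[X], q.eval₂ (ee g n i j) t ∈ B := by
          intro q
          rw [eval₂_eq_sum_range]
          exact B.sum_mem fun m _ => B.mul_mem (he _) (B.pow_mem ht _)
        let f : κ₀[X] →+* B := (eval₂RingHom (ee g n i j) t).codRestrict B.toSubring hco
        refine ⟨g.map f, hg.map _, ?_⟩
        rw [eval₂_map]
        have : (algebraMap B (A3 g n i j)).comp f = eval₂RingHom (ee g n i j) t := by
          ext u
          · rfl
          · rfl
        rw [this]
        exact hw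
      exact isIntegral_trans w hw2
    have hy := hg2 _ _ (hx i) (ev_y g n i j)
    have hz := hg2 _ _ (hx j) (ev_z g n i j hij)
    obtain ⟨s, hs⟩ : (⊤ : Submodule k κ₀).FG := Module.Finite.fg_top
    let T : Set (A3 g n i j) := (ee g n i j) '' (s : Set κ₀) ∪ Set.range (xx g n i j) ∪
      {yy g n i j, zz g n i j}
    have hTf : T.Finite := ((s.finite_toSet.image _).union (Set.finite_range _)).union
      ((Set.finite_singleton _).insert _)
    have hTi : ∀ t ∈ T, IsIntegral (MvPolynomial (Fin n) k) t := by
      rintro t ((⟨u, _, rfl⟩ | ⟨l, rfl⟩) | ht)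
      · exact he u
      · exact hx l
      · rcases ht with rfl | ht
        · exact hy
        · rw [Set.mem_singleton_iff.1 ht]
          exact hz
    have htop : Algebra.adjoin (MvPolynomial (Fin n) k) T = ⊤ := by
      rw [eq_top_iff]
      intro a _
      refine gen g n i j hij (Algebra.adjoin (MvPolynomial (Fin n) k) T).toSubring
        (fun u => ?_) (fun l => ?_) ?_ ?_ a
      · have hu : u ∈ Submodule.span k (s : Set κ₀) := by
          rw [hs]
          trivial
        show ee g n i j u ∈ Algebra.adjoin (MvPolynomial (Fin n) k) T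
        induction hu using Submodule.span_induction with
        | mem v hv => exact Algebra.subset_adjoin (Or.inl (Or.inl ⟨v, hv, rfl⟩))
        | zero =>
          rw [map_zero]
          exact Subalgebra.zero_mem _
        | add v w _ _ hv hw =>
          rw [map_add]
          exact Subalgebra.add_mem _ hv hw
        | smul r v _ hv =>
          rw [Algebra.smul_def, map_mul]
          refine Subalgebra.mul_mem _ ?_ hv
          have : ee g n i j (algebraMap k κ₀ r) =
              algebraMap (MvPolynomial (Fin n) k) (A3 g n i j) (MvPolynomial.C r) := by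
            rw [halg]
            simp [ρ]
          rw [this]
          exact Subalgebra.algebraMap_mem _ _
      · exact Algebra.subset_adjoin (Or.inl (Or.inr ⟨l, rfl⟩))
      · exact Algebra.subset_adjoin (Or.inr (Or.inl rfl))
      · exact Algebra.subset_adjoin (Or.inr (Or.inr rfl))
    have hfg : (Algebra.adjoin (MvPolynomial (Fin n) k) T).toSubmodule.FG :=
      fg_adjoin_of_finite hTf hTi
    rw [htop, Algebra.top_toSubmodule] at hfg
    exact ⟨hfg⟩
  · -- injective
    rw [injective_iff_map_eq_zero]
    intro r hr
    haveI : Infinite k := CharZero.infinite k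
    refine MvPolynomial.funext fun a => ?_
    rw [map_zero]
    obtain ⟨θ, hθ⟩ := exists_roots (n := n) ((mpol a).map (algebraMap k k'))
      ((mpol_monic a).1.map _) (by rw [(mpol_monic a).1.natDegree_map, (mpol_monic a).2])
    obtain ⟨b, hb⟩ := hroot (θ i)
    obtain ⟨c, hc⟩ := hroot (θ j)
    obtain ⟨φ, h1, -⟩ := hev a θ b c hθ hb hc
    have h2 := h1 r
    rw [hr, map_zero] at h2
    exact (map_eq_zero_iff _ (algebraMap k k').injective).1 h2.symm

end Pool.Agent.Helper52.Thin.DOM
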