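import Pool.Agent.Helper55.RT.Spec5
import Pool.Agent.Helper52.Thin.DOM
import Pool.Agent.Helper61.Thin.WRT

/-!
# INT: outside of a thin set the differences are independent modulo `p`-th powers
-/

set_option autoImplicit false
set_option linter.all false

open Polynomial
open scoped Classical

namespace Pool.Agent.Helper52.Thin.INT

open Pool.Agent.TH115.GD Pool.Agent.Helper55.TT
open Pool.Agent.Helper55.RG hiding em_inj VanishL VanishExt
open Pool.Agent.Helper55.RL Pool.Agent.Helper55.RT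
open Pool.Agent.Helper52.Thin.DOM Pool.Agent.Helper61.Thin.WRT

/-- the product -/
noncomputable def bb {κ N : Type} [CommRing N] {n : ℕ} (R : Finset κ) (f : Fin n → Fin n → ℕ)
    (g : Fin n → κ → ℕ) (ψ : κ → N) (θ : Fin n → N) : N :=
  (∏ i, ∏ j ∈ Finset.univ.filter (fun j => i < j), (θ i - θ j) ^ f i j) *
    ∏ i, ∏ r ∈ R, (θ i - ψ r) ^ g i r

theorem bb_map {κ N M : Type} [CommRing N] [CommRing M] {n : ℕ} (R : Finset κ)
    (f : Fin n → Fin n → ℕ) (g : Fin n → κ → ℕ) (ψ : κ → N) (θ : Fin n → N) (φ : N →+* M) :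
    φ (bb R f g ψ θ) = bb R f g (fun u => φ (ψ u)) (fun l => φ (θ l)) := by
  simp only [bb, map_mul, map_prod, map_pow, map_sub]

theorem bb_split {κ N : Type} [CommRing N] {n : ℕ} (R : Finset κ) (f : Fin n → Fin n → ℕ)
    (g : Fin n → κ → ℕ) (ψ : κ → N) (θ : Fin n → N) (p : ℕ) :
    bb R f g ψ θ = bb R (fun i j => f i j % p) (fun i r => g i r % p) ψ θ *
      bb R (fun i j => f i j / p) (fun i r => g i r / p) ψ θ ^ p := by
  have e : ∀ (z : N) (m : ℕ), z ^ m = z ^ (m % p) * (z ^ (m / p)) ^ p := by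
    intro z m
    rw [← pow_mul, ← pow_add, mul_comm (m / p) p, Nat.mod_add_div]
  have e1 : (∏ i, ∏ j ∈ Finset.univ.filter (fun j => i < j), (θ i - θ j) ^ f i j) =
      (∏ i, ∏ j ∈ Finset.univ.filter (fun j => i < j), (θ i - θ j) ^ (f i j % p)) *
      (∏ i, ∏ j ∈ Finset.univ.filter (fun j => i < j), (θ i - θ j) ^ (f i j / p)) ^ p := by
    simp only [← Finset.prod_pow, ← Finset.prod_mul_distrib]
    exact Finset.prod_congr rfl fun i _ => Finset.prod_congr rfl fun j _ => e _ _
  have e2 : (∏ i, ∏ r ∈ R, (θ i - ψ r) ^ g i r) =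
      (∏ i, ∏ r ∈ R, (θ i - ψ r) ^ (g i r % p)) *
      (∏ i, ∏ r ∈ R, (θ i - ψ r) ^ (g i r / p)) ^ p := by
    simp only [← Finset.prod_pow, ← Finset.prod_mul_distrib]
    exact Finset.prod_congr rfl fun i _ => Finset.prod_congr rfl fun j _ => e _ _
  unfold bb
  rw [e1, e2]
  ring

theorem bb_ne {κ N : Type} [Field N] {n : ℕ} (R : Finset κ) (f : Fin n → Fin n → ℕ)
    (g : Fin n → κ → ℕ) (ψ : κ → N) (θ : Fin n → N) (h1 : ∀ i j, i < j → θ i ≠ θ j)
    (h2 : ∀ i, ∀ r ∈ R, θ i ≠ ψ r) : bb R f g ψ θ ≠ 0 := by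
  unfold bb
  refine mul_ne_zero ?_ ?_
  · refine Finset.prod_ne_zero_iff.2 fun i _ => Finset.prod_ne_zero_iff.2 fun j hj => ?_
    exact pow_ne_zero _ (sub_ne_zero.2 (h1 i j (Finset.mem_filter.1 hj).2))
  · refine Finset.prod_ne_zero_iff.2 fun i _ => Finset.prod_ne_zero_iff.2 fun r hr => ?_
    exact pow_ne_zero _ (sub_ne_zero.2 (h2 i r hr))

theorem one (hSL : Q_SL) (hNPW : Q_NPW) (p : ℕ) [Fact p.Prime] (k k' : Type) [Field k]
    [CharZero k] [Field k'] [Algebra k k'] [IsSepClosure k k'] (κ₀ : IntermediateField k k')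
    [FiniteDimensional k κ₀] (hμ : ∀ ζ : k', ζ ^ p = 1 → ζ ∈ κ₀) (n : ℕ) (R : Finset κ₀)
    (f : Fin n → Fin n → ℕ) (g : Fin n → κ₀ → ℕ)
    (hfg : (∃ i j, i < j ∧ ¬ p ∣ f i j) ∨ ∃ i, ∃ r ∈ R, ¬ p ∣ g i r) :
    OffThin fun a : Fin n → k => ∀ θ : Fin n → k',
      (mpol a).map (algebraMap k k') = ∏ i, (X - C (θ i)) → ∀ w : k',
        (∀ ν : k' ≃ₐ[κ₀] k', (∀ i, ν (θ i) = θ i) → ν w = w) →
          w ^ p ≠ bb R f g (fun u => (u : k')) θ := by
  haveI : IsSepClosed k' := IsSepClosure.sep_closed k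
  haveI : CharZero k' := charZero_of_injective_algebraMap (algebraMap k k').injective
  haveI : IsAlgClosed k' := IsSepClosed.isAlgClosed_of_perfectField k'
  haveI : CharZero κ₀ := charZero_of_injective_algebraMap (algebraMap k κ₀).injective
  have hp : p.Prime := Fact.out
  let A0 : Type := MvPolynomial (Fin n) κ₀
  let β : MvPolynomial (Fin n) κ₀ := bb R f g MvPolynomial.C MvPolynomial.X
  let G : (MvPolynomial (Fin n) κ₀)[X] := X ^ p - C β
  have hGm : G.Monic := monic_X_pow_sub_C β hp.ne_zero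
  have hG : Prime G := by
    refine prime_of_monic_map (algebraMap (MvPolynomial (Fin n) κ₀)
      (FractionRing (MvPolynomial (Fin n) κ₀))) (IsFractionRing.injective _ _) G hGm ?_
    have : G.map (algebraMap (MvPolynomial (Fin n) κ₀)
        (FractionRing (MvPolynomial (Fin n) κ₀))) = X ^ p - C (algebraMap _ _ β) := by
      simp [G]
    rw [this]
    exact X_pow_sub_C_irreducible_of_prime hp fun b => hNPW p κ₀ n R f g hfg b
  have hdom : IsDomain (AdjoinRoot G) := AdjoinRoot.isDomain_of_prime hG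
  haveI := hdom
  let e : κ₀ →+* AdjoinRoot G := (AdjoinRoot.of G).comp MvPolynomial.C
  let x : Fin n → AdjoinRoot G := fun l => AdjoinRoot.of G (MvPolynomial.X l)
  let y : AdjoinRoot G := AdjoinRoot.root G
  have hy : y ^ p = AdjoinRoot.of G β := by
    have h := AdjoinRoot.eval₂_root G
    simp only [G, eval₂_sub, eval₂_pow, eval₂_X, eval₂_C] at h
    exact sub_eq_zero.1 h
  let P : (AdjoinRoot G)[X] := ∏ l, (X - C (x l))
  have hPm : P.Monic := monic_prod_of_monic _ _ fun l _ => monic_X_sub_C _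
  have hPd : P.natDegree = n := by
    rw [natDegree_prod_of_monic _ _ fun l _ => monic_X_sub_C _]
    simp
  let ρ : MvPolynomial (Fin n) k →+* AdjoinRoot G :=
    MvPolynomial.eval₂Hom (e.comp (algebraMap k κ₀)) (fun l => P.coeff l)
  letI alg : Algebra (MvPolynomial (Fin n) k) (AdjoinRoot G) := ρ.toAlgebra
  have halg : algebraMap (MvPolynomial (Fin n) k) (AdjoinRoot G) = ρ := rfl
  -- evaluation
  have hev : ∀ (a : Fin n → k) (θ : Fin n → k') (N : Type) (_ : CommRing N) (ψ : k' →+* N) (b : N),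
      (mpol a).map (algebraMap k k') = ∏ l, (X - C (θ l)) →
      b ^ p = ψ (bb R f g (fun u => (u : k')) θ) →
      ∃ φ : AdjoinRoot G →+* N, (∀ r, φ (algebraMap (MvPolynomial (Fin n) k) (AdjoinRoot G) r) =
          ψ (algebraMap k k' (MvPolynomial.eval a r))) ∧
        (∀ u, φ (e u) = ψ (u : k')) ∧ (∀ l, φ (x l) = ψ (θ l)) ∧ φ y = b := by
    intro a θ N _ ψ b hθ hb
    let φ0 : MvPolynomial (Fin n) κ₀ →+* N :=
      MvPolynomial.eval₂Hom (ψ.comp (algebraMap κ₀ k')) (fun l => ψ (θ l))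
    have hφ0 : φ0 β = ψ (bb R f g (fun u => (u : k')) θ) := by
      rw [bb_map, bb_map]
      congr 1
      · funext u
        simp [φ0]
      · funext l
        simp [φ0]
    let φ : AdjoinRoot G →+* N := AdjoinRoot.lift φ0 b (by
      simp only [G, eval₂_sub, eval₂_pow, eval₂_X, eval₂_C]
      rw [hφ0, hb, sub_self])
    have h1 : ∀ u, φ (e u) = ψ (u : k') := by
      intro u
      simp [φ, e, φ0]
    have h2 : ∀ l, φ (x l) = ψ (θ l) := by
      intro l
      simp [φ, x, φ0]
    have h3 : φ y = b := by simp [φ, y]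
    refine ⟨φ, fun r => ?_, h1, h2, h3⟩
    rw [halg]
    have hPφ : P.map φ = ((mpol a).map (algebraMap k k')).map ψ := by
      rw [hθ]
      simp only [P, Polynomial.map_prod, Polynomial.map_sub, Polynomial.map_X, Polynomial.map_C, h2]
    have : φ.comp ρ = (ψ.comp (algebraMap k k')).comp (MvPolynomial.eval a) := by
      apply MvPolynomial.ringHom_ext
      · intro r
        simp only [ρ, RingHom.comp_apply, MvPolynomial.coe_eval₂Hom, MvPolynomial.eval₂_C,
          MvPolynomial.eval_C, h1]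
        rfl
      · intro l
        simp only [ρ, RingHom.comp_apply, MvPolynomial.coe_eval₂Hom, MvPolynomial.eval₂_X,
          MvPolynomial.eval_X]
        rw [← coeff_map, hPφ, coeff_map, coeff_map, mpol_get]
    exact congrArg (fun f => f r) this
  -- finite
  have hfin : Module.Finite (MvPolynomial (Fin n) k) (AdjoinRoot G) := by
    have hx : ∀ l, IsIntegral (MvPolynomial (Fin n) k) (x l) := by
      intro l
      refine ⟨mpol MvPolynomial.X, (mpol_monic _).1, ?_⟩
      rw [halg, ← eval_map, mpol_map]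
      have : (fun l : Fin n => ρ (MvPolynomial.X l)) = fun l : Fin n => P.coeff l := by
        funext l
        simp [ρ]
      rw [this, mpol_coeff P hPm hPd]
      simp only [P, eval_prod, eval_sub, eval_X, eval_C]
      exact Finset.prod_eq_zero (Finset.mem_univ l) (sub_self _)
    have he : ∀ u : κ₀, IsIntegral (MvPolynomial (Fin n) k) (e u) := by
      intro u
      have hu : IsIntegral k u := Algebra.IsIntegral.isIntegral u
      obtain ⟨q, hq, hq0⟩ := hu
      refine ⟨q.map MvPolynomial.C, hq.map _, ?_⟩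
      rw [eval₂_map]
      have : (algebraMap (MvPolynomial (Fin n) k) (AdjoinRoot G)).comp MvPolynomial.C =
          e.comp (algebraMap k κ₀) := by
        ext r
        rw [halg]
        simp [ρ]
      rw [this, ← hom_eval₂, hq0, map_zero]
    have hof : ∀ q : MvPolynomial (Fin n) κ₀,
        IsIntegral (MvPolynomial (Fin n) k) (AdjoinRoot.of G q) := by
      intro q
      induction q using MvPolynomial.induction_on with
      | C u => exact he u
      | add p q hp hq =>
        rw [map_add]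
        exact hp.add hq
      | mul_X p l hp =>
        rw [map_mul]
        exact hp.mul (hx l)
    have hyi : IsIntegral (MvPolynomial (Fin n) k) y := by
      refine IsIntegral.of_pow hp.pos ?_
      rw [hy]
      exact hof β
    obtain ⟨s, hs⟩ : (⊤ : Submodule k κ₀).FG := Module.Finite.fg_top
    let T : Set (AdjoinRoot G) := e '' (s : Set κ₀) ∪ Set.range x ∪ {y}
    have hTf : T.Finite := ((s.finite_toSet.image _).union (Set.finite_range _)).union
      (Set.finite_singleton _)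
    have hTi : ∀ t ∈ T, IsIntegral (MvPolynomial (Fin n) k) t := by
      rintro t ((⟨u, _, rfl⟩ | ⟨l, rfl⟩) | ht)
      · exact he u
      · exact hx l
      · rw [Set.mem_singleton_iff.1 ht]
        exact hyi
    have heT : ∀ u, e u ∈ Algebra.adjoin (MvPolynomial (Fin n) k) T := by
      intro u
      have hu : u ∈ Submodule.span k (s : Set κ₀) := by
        rw [hs]
        trivial
      induction hu using Submodule.span_induction with
      | mem v hv => exact Algebra.subset_adjoin (Or.inl (Or.inl ⟨v, hv, rfl⟩))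
      | zero =>
        rw [map_zero]
        exact Subalgebra.zero_mem _
      | add v w _ _ hv hw =>
        rw [map_add]
        exact Subalgebra.add_mem _ hv hw
      | smul r v _ hv =>
        rw [Algebra.smul_def, map_mul]
        refine Subalgebra.mul_mem _ ?_ hv
        have : e (algebraMap k κ₀ r) =
            algebraMap (MvPolynomial (Fin n) k) (AdjoinRoot G) (MvPolynomial.C r) := by
          rw [halg]
          simp [ρ]
        rw [this]
        exact Subalgebra.algebraMap_mem _ _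
    have hofT : ∀ q : MvPolynomial (Fin n) κ₀,
        AdjoinRoot.of G q ∈ Algebra.adjoin (MvPolynomial (Fin n) k) T := by
      intro q
      induction q using MvPolynomial.induction_on with
      | C u => exact heT u
      | add p q hp hq =>
        rw [map_add]
        exact Subalgebra.add_mem _ hp hq
      | mul_X p l hp =>
        rw [map_mul]
        exact Subalgebra.mul_mem _ hp (Algebra.subset_adjoin (Or.inl (Or.inr ⟨l, rfl⟩)))
    have htop : Algebra.adjoin (MvPolynomial (Fin n) k) T = ⊤ := by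
      rw [eq_top_iff]
      intro a _
      obtain ⟨Q, rfl⟩ := AdjoinRoot.mk_surjective a
      refine gen_poly (AdjoinRoot.mk G) (Algebra.adjoin (MvPolynomial (Fin n) k) T).toSubring
        (fun r => hofT r) ?_ Q
      exact Algebra.subset_adjoin (Or.inr rfl)
    have hfg : (Algebra.adjoin (MvPolynomial (Fin n) k) T).toSubmodule.FG :=
      fg_adjoin_of_finite hTf hTi
    rw [htop, Algebra.top_toSubmodule] at hfg
    exact ⟨hfg⟩
  haveI := hfin
  -- injective
  have hinj : Function.Injective (algebraMap (MvPolynomial (Fin n) k) (AdjoinRoot G)) := by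
    rw [injective_iff_map_eq_zero]
    intro r hr
    haveI : Infinite k := CharZero.infinite k
    refine MvPolynomial.funext fun a => ?_
    rw [map_zero]
    obtain ⟨θ, hθ⟩ := exists_roots (n := n) ((mpol a).map (algebraMap k k'))
      ((mpol_monic a).1.map _) (by rw [(mpol_monic a).1.natDegree_map, (mpol_monic a).2])
    obtain ⟨b, hb⟩ := IsAlgClosed.exists_pow_nat_eq (bb R f g (fun u : κ₀ => (u : k')) θ) hp.pos
    obtain ⟨φ, h1, -⟩ := hev a θ k' _ (RingHom.id k') b hθ (by rw [hb]; rfl)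
    have h2 := h1 r
    rw [hr, map_zero] at h2
    exact (map_eq_zero_iff _ (algebraMap k k').injective).1 h2.symm
  refine mono (hSL k n (AdjoinRoot G) hinj) ?_
  intro a ha θ hθ w hw hwp
  have hle : ∀ (N : Type) (_ : CommRing N) (ψ : k' →+* N) (φ : AdjoinRoot G →+* N),
      (∀ r, φ (algebraMap (MvPolynomial (Fin n) k) (AdjoinRoot G) r) =
        ψ (algebraMap k k' (MvPolynomial.eval a r))) →
      Ideal.map (algebraMap (MvPolynomial (Fin n) k) (AdjoinRoot G))
        (RingHom.ker (MvPolynomial.eval a : MvPolynomial (Fin n) k →+* k)) ≤ RingHom.ker φ := by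
    intro N _ ψ φ hφ
    rw [Ideal.map_le_iff_le_comap]
    intro r hr
    rw [RingHom.mem_ker] at hr
    rw [Ideal.mem_comap, RingHom.mem_ker, hφ, hr, map_zero, map_zero]
  -- the root of unity
  obtain ⟨ζ, hζ⟩ : ∃ ζ : k', IsPrimitiveRoot ζ p := by
    haveI : NeZero (p : k') := ⟨Nat.cast_ne_zero.2 hp.ne_zero⟩
    exact ⟨_, (HasEnoughRootsOfUnity.exists_primitiveRoot k' p).choose_spec⟩
  obtain ⟨φ, q1, q2, q3, q4⟩ := hev a θ k' _ (RingHom.id k') w hθ hwp
  obtain ⟨φ', q1', q2', q3', q4'⟩ := hev a θ k' _ (RingHom.id k') (ζ * w) hθ (by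
    rw [mul_pow, hζ.pow_eq_one, one_mul]
    exact hwp)
  obtain ⟨s, hs⟩ := key κ₀ _ ha e φ φ' (hle k' _ _ φ q1) (hle k' _ _ φ' q1') q2 q2'
  have hsw : s w = ζ * w := by rw [← q4, hs, q4', q4]
  have hsw2 : s w = w := by
    refine hw s fun i => ?_
    have h1 : φ (x i) = θ i := q3 i
    have h2 : φ' (x i) = θ i := q3' i
    rw [← h1, hs, h2, h1]
  have hw0 : w = 0 := by
    have h1 : (ζ - 1) * w = 0 := by
      rw [sub_mul, one_mul, ← hsw, hsw2, sub_self]
    rcases mul_eq_zero.1 h1 with h | h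
    · exact absurd (sub_eq_zero.1 h) (hζ.ne_one hp.one_lt)
    · exact h
  -- `y` lies in the ideal
  have hker : RingHom.ker φ = Ideal.map (algebraMap (MvPolynomial (Fin n) k) (AdjoinRoot G))
        (RingHom.ker (MvPolynomial.eval a : MvPolynomial (Fin n) k →+* k)) :=
    (ha.eq_of_le (RingHom.ker_ne_top φ) (hle k' _ _ φ q1)).symm
  have hyI : y ∈ Ideal.map (algebraMap (MvPolynomial (Fin n) k) (AdjoinRoot G))
        (RingHom.ker (MvPolynomial.eval a : MvPolynomial (Fin n) k →+* k)) := by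
    rw [← hker, RingHom.mem_ker, q4, hw0]
  obtain ⟨φ'', r1, r2, r3, r4⟩ := hev a θ (DualNumber k') inferInstance
    (algebraMap k' (DualNumber k')) DualNumber.eps hθ (by
      have h1 : bb R f g (fun u : κ₀ => (u : k')) θ = 0 := by
        rw [← hwp, hw0, zero_pow hp.ne_zero]
      rw [h1, map_zero]
      obtain ⟨m, hm⟩ := Nat.exists_eq_add_of_le hp.two_le
      rw [hm, pow_add, pow_two, DualNumber.eps_mul_eps, zero_mul])
  have h0 := hle (DualNumber k') _ _ φ'' r1 hyI
  rw [RingHom.mem_ker, r4] at h0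
  have h1 := congrArg TrivSqZeroExt.snd h0
  simp at h1

theorem main (hSL : Q_SL) (hNPW : Q_NPW) : Q_INT := by
  intro p _ k k' _ _ _ _ _ κ₀ _ R hR hμ n
  have hp : p.Prime := Fact.out
  let R' : Finset κ₀ := R.subtype (· ∈ κ₀)
  have hR' : ∀ F : k' → k', ∏ r ∈ R', F (r : k') = ∏ r ∈ R, F r := fun F =>
    Finset.prod_subtype_of_mem F hR
  have hmem : ∀ r (hr : r ∈ R), (⟨r, hR r hr⟩ : κ₀) ∈ R' := fun r hr => Finset.mem_subtype.2 hr
  let ι : Type := {q : (Fin n → Fin n → Fin p) × (Fin n → {r : κ₀ // r ∈ R'} → Fin p) //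
    (∃ i j, i < j ∧ (q.1 i j : ℕ) ≠ 0) ∨ ∃ i r, (q.2 i r : ℕ) ≠ 0}
  let gg : (Fin n → {r : κ₀ // r ∈ R'} → Fin p) → Fin n → κ₀ → ℕ := fun q i r =>
    if h : r ∈ R' then (q i ⟨r, h⟩ : ℕ) else 0
  have hnd : ∀ m : Fin p, (m : ℕ) ≠ 0 → ¬ p ∣ (m : ℕ) := fun m hm hd =>
    absurd (Nat.le_of_dvd (Nat.pos_of_ne_zero hm) hd) (not_le.2 m.2)
  have hall : OffThin fun a : Fin n → k => ∀ q : ι, ∀ θ : Fin n → k',
      (mpol a).map (algebraMap k k') = ∏ i, (X - C (θ i)) → ∀ w : k',
        (∀ ν : k' ≃ₐ[κ₀] k', (∀ i, ν (θ i) = θ i) → ν w = w) →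
          w ^ p ≠ bb R' (fun i j => (q.1.1 i j : ℕ)) (gg q.1.2) (fun u => (u : k')) θ := by
    refine all fun q => ?_
    refine one hSL hNPW p k k' κ₀ hμ n R' _ _ ?_
    rcases q.2 with ⟨i, j, hij, h⟩ | ⟨i, r, h⟩
    · exact Or.inl ⟨i, j, hij, hnd _ h⟩
    · refine Or.inr ⟨i, r.1, r.2, ?_⟩
      simp only [gg, dif_pos r.2]
      exact hnd _ h
  refine mono hall ?_
  intro a ha θ hθ f g hex
  obtain ⟨w, hw, hwp⟩ := hex
  -- the roots are different
  have hz : ∀ q : ι, bb R' (fun i j => (q.1.1 i j : ℕ)) (gg q.1.2) (fun u => (u : k')) θ ≠ 0 := by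
    intro q hq
    refine ha q θ hθ 0 (fun ν _ => map_zero ν) ?_
    rw [hq, zero_pow hp.ne_zero]
  haveI : NeZero p := ⟨hp.ne_zero⟩
  have hd1 : ∀ i j, i < j → θ i ≠ θ j := by
    intro i j hij he
    let q : ι := ⟨(fun a b => if a = i ∧ b = j then ⟨1, hp.one_lt⟩ else 0, fun _ _ => 0),
      Or.inl ⟨i, j, hij, by simp⟩⟩
    refine hz q ?_
    unfold bb
    rw [Finset.prod_eq_zero (Finset.mem_univ i), zero_mul]
    refine Finset.prod_eq_zero (Finset.mem_filter.2 ⟨Finset.mem_univ j, hij⟩) ?_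
    rw [he, sub_self]
    simp [q]
  have hd2 : ∀ i, ∀ r ∈ R', θ i ≠ (r : k') := by
    intro i r hr he
    let q : ι := ⟨(fun _ _ => 0, fun a b => if a = i ∧ b.1 = r then ⟨1, hp.one_lt⟩ else 0),
      Or.inr ⟨i, ⟨r, hr⟩, by simp⟩⟩
    refine hz q ?_
    unfold bb
    rw [mul_comm, Finset.prod_eq_zero (Finset.mem_univ i), zero_mul]
    refine Finset.prod_eq_zero hr ?_
    rw [he, sub_self]
    simp [q, gg, hr]
  -- reduction of the exponents
  have hbb : w ^ p = bb R' f (fun i r => g i (r : k')) (fun u => (u : k')) θ := by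
    rw [hwp]
    unfold bb
    congr 1
    refine Finset.prod_congr rfl fun i _ => ?_
    exact (hR' fun r => (θ i - r) ^ g i r).symm
  set u : k' := bb R' (fun i j => f i j / p) (fun i r => g i (r : k') / p) (fun u => (u : k')) θ
    with hu
  have hu0 : u ≠ 0 := bb_ne _ _ _ _ _ hd1 hd2
  have hquot : (w / u) ^ p = bb R' (fun i j => f i j % p) (fun i r => g i (r : k') % p)
      (fun u => (u : k')) θ := by
    rw [div_pow, hbb, bb_split _ _ _ _ _ p, mul_div_assoc, div_self (pow_ne_zero _ hu0), mul_one]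
  have hfix : ∀ ν : k' ≃ₐ[κ₀] k', (∀ i, ν (θ i) = θ i) → ν (w / u) = w / u := by
    intro ν hν
    have h1 : ν u = u := by
      have := bb_map R' (fun i j => f i j / p) (fun i r => g i (r : k') / p)
        (fun u => (u : k')) θ (ν : k' →+* k')
      rw [hu]
      refine this.trans ?_
      congr 1
      · funext v
        exact ν.commutes v
      · funext l
        exact hν l
    rw [map_div₀, hw ν hν, h1]
  by_contra hcon
  let q0 : (Fin n → Fin n → Fin p) × (Fin n → {r : κ₀ // r ∈ R'} → Fin p) :=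
    (fun i j => ⟨f i j % p, Nat.mod_lt _ hp.pos⟩, fun i r => ⟨g i ((r : κ₀) : k') % p,
      Nat.mod_lt _ hp.pos⟩)
  have hq0 : (∃ i j, i < j ∧ (q0.1 i j : ℕ) ≠ 0) ∨ ∃ i r, (q0.2 i r : ℕ) ≠ 0 := by
    by_contra h
    push Not at h
    refine hcon ⟨fun i j hij => Nat.dvd_of_mod_eq_zero (h.1 i j hij), fun i r hr => ?_⟩
    exact Nat.dvd_of_mod_eq_zero (h.2 i ⟨⟨r, hR r hr⟩, hmem r hr⟩)
  refine ha ⟨q0, hq0⟩ θ hθ (w / u) hfix ?_
  rw [hquot]
  unfold bb
  congr 1
  refine Finset.prod_congr rfl fun i _ => Finset.prod_congr rfl fun r hr => ?_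
  simp only [gg, dif_pos hr, q0]

end Pool.Agent.Helper52.Thin.INT
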